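import Mathlib

set_option maxHeartbeats 4000000
set_option linter.unusedSectionVars false

namespace Pool.Agent.Results.MP_61df98_mp.RepeatedPotential

open Matrix

/-- The `q × q` Floquet matrix `L_V` at quasimomentum `z = 1` (positions `1, …, q` of the problem
are the elements `0, …, q - 1` of `Fin q`): diagonal entries `v`, ones on the two neighbouring
diagonals and ones in the two corners. -/
def floquet {R : Type*} [CommRing R] (q : ℕ) (v : Fin q → R) : Matrix (Fin q) (Fin q) R :=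
  Matrix.of fun i j =>
    if i = j then v i
    else if (i : ℕ) + 1 = j ∨ (j : ℕ) + 1 = i ∨ ((i : ℕ) = 0 ∧ (j : ℕ) + 1 = q) ∨
        ((j : ℕ) = 0 ∧ (i : ℕ) + 1 = q) then 1
    else 0

/-- `D_V(λ) = det (L_V - λ I)` as a polynomial in `λ`. -/
noncomputable def charDet {R : Type*} [CommRing R] (q : ℕ) (v : Fin q → R) : Polynomial R :=
  ((floquet q v).map Polynomial.C -
    (Polynomial.X : Polynomial R) • (1 : Matrix (Fin q) (Fin q) (Polynomial R))).det

/-- `ζ_V = D_V - D_0`. -/
noncomputable def zeta {R : Type*} [CommRing R] (q : ℕ) (v : Fin q → R) : Polynomial R :=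
  charDet q v - charDet q 0

/-- The antisymmetric potential with parameters `u = (u_1, …, u_m)`, `m = ⌊q/2⌋`. -/
def anti {R : Type*} [CommRing R] (q : ℕ) (u : Fin (q / 2) → R) : Fin q → R := fun j =>
  if h : (j : ℕ) < q / 2 then u ⟨j, h⟩
  else if h : q - 1 - (j : ℕ) < q / 2 then - u ⟨q - 1 - (j : ℕ), h⟩
  else 0

/-- The polynomials `p'_k`. -/
noncomputable def pPrime (q k : ℕ) : MvPolynomial (Fin (q / 2)) ℂ :=
  (-1) ^ (q + k) * (zeta q (anti q (fun i => MvPolynomial.X i))).coeff (q - 2 * k)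

/-- The ideal `I'` generated by `p'_1, …, p'_m`. -/
noncomputable def idealI (q : ℕ) : Ideal (MvPolynomial (Fin (q / 2)) ℂ) :=
  Ideal.span (pPrime q '' Set.Icc 1 (q / 2))

/-- The zero set `V(I')`. -/
def zeroSet (q : ℕ) : Set (Fin (q / 2) → ℂ) :=
  {a | ∀ f ∈ idealI q, MvPolynomial.eval a f = 0}

/-- The polynomials that do not vanish at `a`: the complement of the maximal ideal `𝔪_a`. -/
def nonvanishing {σ : Type*} (a : σ → ℂ) : Submonoid (MvPolynomial σ ℂ) where
  carrier := {f | MvPolynomial.eval a f ≠ 0}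
  one_mem' := by simp
  mul_mem' := by
    intro f g hf hg
    simp only [Set.mem_ofPred_eq, map_mul] at *
    exact mul_ne_zero hf hg

/-- The local ring `(ℂ[u]/I')_{𝔪_a}`. -/
abbrev LocalRing (q : ℕ) (a : Fin (q / 2) → ℂ) : Type :=
  Localization ((nonvanishing a).map
    (Ideal.Quotient.mk (idealI q) : MvPolynomial (Fin (q / 2)) ℂ →+* _))

/-- The multiplicity of `a`. -/
noncomputable def mult (q : ℕ) (a : Fin (q / 2) → ℂ) : ℕ := Module.finrank ℂ (LocalRing q a)

/-- The assertions (a), (b), (c) of the problem for a given `q`. -/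
def Assertions (q : ℕ) : Prop :=
  (Odd q → ∀ a ∈ zeroSet q, a ≠ 0 → mult q a = 1) ∧
  (Even q → 6 < q → ∃ a : Fin (q / 2) → ℂ,
    {x | x ∈ zeroSet q ∧ x ≠ 0 ∧ mult q x ≠ 1} =
      {x | x = a ∨ x = -a ∨ x = star a ∨ x = -star a} ∧
    ∀ x ∈ zeroSet q, x ≠ 0 → mult q x ≠ 1 → mult q x = 2 ^ (q / 2 - 2)) ∧
  mult q 0 = 2 ^ (q / 2)

/-! ### Determinants -/

/-- The `5 × 5` determinant. -/
theorem det_five {B : Type*} [CommRing B] (d0 d1 d2 d3 d4 z z' : B) :
    (!![d0, 1, 0, 0, z'; 1, d1, 1, 0, 0; 0, 1, d2, 1, 0; 0, 0, 1, d3, 1; z, 0, 0, 1, d4] :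
      Matrix (Fin 5) (Fin 5) B).det =
    d0 * d1 * d2 * d3 * d4 - d2 * d3 * d4 - d0 * d3 * d4 - d0 * d1 * d4 - d0 * d1 * d2
      - z * z' * d1 * d2 * d3 + d4 + d2 + d0 + z * z' * d3 + z * z' * d1 + z + z' := by
  simp [Matrix.det_succ_row_zero, Fin.sum_univ_succ, Fin.succAbove, Matrix.submatrix]
  ring


/-! ### A potential of period five on a cycle of length fifteen -/

section Block

open Polynomial

/-- The `5 × 5` blocks. -/
noncomputable def blk (w : Fin 5 → ℂ) (z z' : ℂ) : Matrix (Fin 5) (Fin 5) ℂ[X] :=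
  !![C (w 0) - X, 1, 0, 0, C z'; 1, C (w 1) - X, 1, 0, 0; 0, 1, C (w 2) - X, 1, 0;
    0, 0, 1, C (w 3) - X, 1; C z, 0, 0, 1, C (w 4) - X]

noncomputable def matE : Matrix (Fin 5) (Fin 5) ℂ[X] :=
  !![0, 0, 0, 0, 0; 0, 0, 0, 0, 0; 0, 0, 0, 0, 0; 0, 0, 0, 0, 0; 1, 0, 0, 0, 0]

noncomputable def matS : Matrix (Fin 3) (Fin 3) ℂ[X] := !![0, 1, 0; 0, 0, 1; 1, 0, 0]

def rep (w : Fin 5 → ℂ) : Fin 15 → ℂ := fun j => w ⟨j % 5, Nat.mod_lt _ (by norm_num)⟩

def eqv : Fin 5 × Fin 3 ≃ Fin 15 := (Equiv.prodComm _ _).trans finProdFinEquiv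

theorem split (w : Fin 5 → ℂ) :
    ((floquet 15 (rep w)).map C - (X : ℂ[X]) • (1 : Matrix (Fin 15) (Fin 15) ℂ[X])).submatrix
      eqv eqv =
    Matrix.kroneckerMap (· * ·) (blk w 0 0) (1 : Matrix (Fin 3) (Fin 3) ℂ[X]) +
      Matrix.kroneckerMap (· * ·) matE matS +
      Matrix.kroneckerMap (· * ·) matEᵀ matSᵀ := by
  ext ⟨r, s⟩ ⟨r', s'⟩ : 1
  fin_cases r <;> fin_cases s <;> fin_cases r' <;> fin_cases s' <;>
    simp [floquet, rep, eqv, finProdFinEquiv, blk, matE, matS]


theorem blk_eq (w : Fin 5 → ℂ) (z z' : ℂ) :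
    blk w z z' = blk w 0 0 + (C z) • matE + (C z') • matEᵀ := by
  ext i j : 1
  fin_cases i <;> fin_cases j <;> simp [blk, matE]

noncomputable def matF (ω : ℂ) : Matrix (Fin 3) (Fin 3) ℂ[X] :=
  !![1, 1, 1; 1, C ω, C ω ^ 2; 1, C ω ^ 2, C ω]

def vecOm (ω : ℂ) : Fin 3 → ℂ := ![1, ω, ω ^ 2]

theorem hSF (ω : ℂ) (hω : ω ^ 2 + ω + 1 = 0) :
    matS * matF ω = matF ω * Matrix.diagonal (fun k => C (vecOm ω k)) := by
  have h3 : ω ^ 3 = 1 := by linear_combination (ω - 1) * hω
  have hC3 : (C ω : ℂ[X]) ^ 3 = 1 := by rw [← C_pow, h3, C_1]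
  ext i j : 1
  fin_cases i <;> fin_cases j <;>
    simp [matS, matF, vecOm, Matrix.mul_apply, Fin.sum_univ_three, Matrix.diagonal_apply] <;>
      first | done | ring1 | linear_combination hC3 | linear_combination (-1 : ℂ[X]) * hC3 |
        linear_combination (C ω : ℂ[X]) * hC3 | linear_combination (-C ω : ℂ[X]) * hC3

theorem hSF' (ω : ℂ) (hω : ω ^ 2 + ω + 1 = 0) :
    matSᵀ * matF ω = matF ω * Matrix.diagonal (fun k => C (vecOm ω k) ^ 2) := by
  have h3 : ω ^ 3 = 1 := by linear_combination (ω - 1) * hω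
  have hC3 : (C ω : ℂ[X]) ^ 3 = 1 := by rw [← C_pow, h3, C_1]
  ext i j : 1
  fin_cases i <;> fin_cases j <;>
    simp [matS, matF, vecOm, Matrix.mul_apply, Fin.sum_univ_three, Matrix.diagonal_apply] <;>
      first | done | ring1 | linear_combination hC3 | linear_combination (-1 : ℂ[X]) * hC3 |
        linear_combination (C ω : ℂ[X]) * hC3 | linear_combination (-C ω : ℂ[X]) * hC3 |
        linear_combination (C ω ^ 2 : ℂ[X]) * hC3 | linear_combination (-C ω ^ 2 : ℂ[X]) * hC3 |
        linear_combination (C ω ^ 3 + 1 : ℂ[X]) * hC3 |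
        linear_combination (-C ω ^ 3 - 1 : ℂ[X]) * hC3

theorem matF_det (ω : ℂ) (hω : ω ^ 2 + ω + 1 = 0) : (matF ω).det ≠ 0 := by
  have hFdet : (matF ω).det ^ 2 = -27 := by
    rw [matF, Matrix.det_fin_three]
    simp only [Matrix.of_apply, Matrix.cons_val', Matrix.cons_val_zero, Matrix.cons_val_one,
      Matrix.cons_val_fin_one, Matrix.cons_val]
    have hC : (C ω : ℂ[X]) ^ 2 + C ω + 1 = 0 := by
      rw [← C_pow, ← C_add, ← C_1, ← C_add, hω, C_0]
    linear_combination ((C ω) ^ 6 - (C ω) ^ 5 - 6 * (C ω) ^ 4 + 11 * (C ω) ^ 3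
      + 4 * (C ω) ^ 2 - 27 * (C ω) + 27) * hC
  intro h
  rw [h] at hFdet
  have : (27 : ℂ[X]) = 0 := by linear_combination hFdet
  have h27 : (C (27 : ℂ) : ℂ[X]) = 0 := by rw [map_ofNat]; exact this
  rw [C_eq_zero] at h27
  norm_num at h27

noncomputable def matG (ω : ℂ) : Matrix (Fin 5 × Fin 3) (Fin 5 × Fin 3) ℂ[X] :=
  Matrix.kroneckerMap (· * ·) (1 : Matrix (Fin 5) (Fin 5) ℂ[X]) (matF ω)

theorem matG_det (ω : ℂ) (hω : ω ^ 2 + ω + 1 = 0) : (matG ω).det ≠ 0 := by
  rw [matG, Matrix.det_kronecker, Matrix.det_one, one_pow, one_mul]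
  exact pow_ne_zero _ (matF_det ω hω)

theorem block_form (w : Fin 5 → ℂ) (ω : ℂ) :
    Matrix.blockDiagonal (fun k => blk w (vecOm ω k) (vecOm ω k ^ 2)) =
        Matrix.kroneckerMap (· * ·) (blk w 0 0) (1 : Matrix (Fin 3) (Fin 3) ℂ[X]) +
        Matrix.kroneckerMap (· * ·) matE (Matrix.diagonal (fun k => C (vecOm ω k))) +
        Matrix.kroneckerMap (· * ·) matEᵀ (Matrix.diagonal (fun k => C (vecOm ω k) ^ 2)) := by
  ext ⟨i, k⟩ ⟨j, l⟩ : 1
  rw [Matrix.blockDiagonal_apply, blk_eq]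
  simp only [Matrix.add_apply, Matrix.kroneckerMap_apply, Matrix.one_apply,
    Matrix.diagonal_apply, Matrix.smul_apply, smul_eq_mul]
  by_cases hkl : k = l
  · simp only [hkl, if_true]
    rw [C_pow]; ring
  · simp [hkl]

theorem key (w : Fin 5 → ℂ) (ω : ℂ) (hω : ω ^ 2 + ω + 1 = 0) :
    (Matrix.kroneckerMap (· * ·) (blk w 0 0) (1 : Matrix (Fin 3) (Fin 3) ℂ[X]) +
      Matrix.kroneckerMap (· * ·) matE matS +
      Matrix.kroneckerMap (· * ·) matEᵀ matSᵀ) * matG ω = matG ω * Matrix.blockDiagonal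
      (fun k => blk w (vecOm ω k) (vecOm ω k ^ 2)) := by
  rw [block_form, matG]
  have m1 := fun (A : Matrix (Fin 5) (Fin 5) ℂ[X]) (B C' : Matrix (Fin 3) (Fin 3) ℂ[X]) =>
    Matrix.mul_kronecker_mul A (1 : Matrix (Fin 5) (Fin 5) ℂ[X]) B C'
  have m2 := fun (A : Matrix (Fin 5) (Fin 5) ℂ[X]) (B C' : Matrix (Fin 3) (Fin 3) ℂ[X]) =>
    Matrix.mul_kronecker_mul (1 : Matrix (Fin 5) (Fin 5) ℂ[X]) A B C'
  rw [Matrix.add_mul, Matrix.add_mul, Matrix.mul_add, Matrix.mul_add]
  rw [← m1, ← m1, ← m1, ← m2, ← m2, ← m2, hSF ω hω, hSF' ω hω]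
  simp

theorem charDet_eq (w : Fin 5 → ℂ) : charDet 15 (rep w) =
    (Matrix.kroneckerMap (· * ·) (blk w 0 0) (1 : Matrix (Fin 3) (Fin 3) ℂ[X]) +
      Matrix.kroneckerMap (· * ·) matE matS +
      Matrix.kroneckerMap (· * ·) matEᵀ matSᵀ).det := by
  rw [← split, Matrix.det_submatrix_equiv_self]
  rfl

theorem charDet_rep_aux (w : Fin 5 → ℂ) (ω : ℂ) (hω : ω ^ 2 + ω + 1 = 0) :
    charDet 15 (rep w) =
      ∏ k, (blk w (vecOm ω k) (vecOm ω k ^ 2)).det := by
  rw [charDet_eq]
  have h := congrArg Matrix.det (key w ω hω)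
  have h2 : (Matrix.blockDiagonal (fun k => blk w (vecOm ω k) (vecOm ω k ^ 2))).det =
      ∏ k, (blk w (vecOm ω k) (vecOm ω k ^ 2)).det := Matrix.det_blockDiagonal _
  rw [Matrix.det_mul, Matrix.det_mul, h2] at h
  have hne := matG_det ω hω
  revert h hne
  generalize (matG ω).det = g
  generalize (∏ k, (blk w (vecOm ω k) (vecOm ω k ^ 2)).det) = P
  intro h hne
  exact mul_left_cancel₀ hne ((mul_comm _ _).trans h)

/-- The determinant of the blocks for an antisymmetric potential of period five which is Floquet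
isospectral to zero. -/
theorem blk_iso (a : ℂ) (ha : a ^ 2 = 1 - 2 * Complex.I) (z z' : ℂ) (hz : z * z' = 1) :
    (blk ![a, Complex.I * a, 0, -(Complex.I * a), -a] z z').det = (blk 0 z z').det := by
  have hzC : (C z : ℂ[X]) * C z' = 1 := by rw [← C_mul, hz, C_1]
  have haC : (C a : ℂ[X]) ^ 2 = 1 - 2 * C Complex.I := by
    rw [← C_pow, ha, C_sub, C_mul, C_1, map_ofNat]
  have hI : (C Complex.I : ℂ[X]) ^ 2 = -1 := by
    rw [← C_pow, Complex.I_sq, C_neg, C_1]
  rw [blk, blk, det_five, det_five]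
  simp only [Matrix.cons_val_zero, Matrix.cons_val_one, Matrix.cons_val, Pi.zero_apply, C_0,
    C_neg, C_mul]
  linear_combination ((C a) ^ 2 * X ^ 3 - X * (C a) ^ 2 * ((C a) ^ 2 + 1)) * hI +
    X * (C a) ^ 2 * haC - (C Complex.I) ^ 2 * (C a) ^ 2 * X * hzC

/-- The antisymmetric potential of period five, repeated three times. -/
noncomputable def pot5 (a : ℂ) : Fin 5 → ℂ := ![a, Complex.I * a, 0, -(Complex.I * a), -a]

theorem rep_zero : rep 0 = 0 := by
  funext j
  simp [rep]

theorem exists_omega : ∃ ω : ℂ, ω ^ 2 + ω + 1 = 0 := by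
  obtain ⟨s, hs⟩ := IsAlgClosed.exists_pow_nat_eq (-3 : ℂ) (n := 2) (by norm_num)
  exact ⟨(-1 + s) / 2, by linear_combination hs / 4⟩

theorem vecOm_mul (ω : ℂ) (hω : ω ^ 2 + ω + 1 = 0) (k : Fin 3) :
    vecOm ω k * vecOm ω k ^ 2 = 1 := by
  fin_cases k
  · simp [vecOm]
  · simp [vecOm]; linear_combination (ω - 1) * hω
  · simp [vecOm]; linear_combination (ω ^ 4 - ω ^ 3 + ω - 1) * hω

theorem charDet_rep (a : ℂ) (ha : a ^ 2 = 1 - 2 * Complex.I) :
    charDet 15 (rep (pot5 a)) = charDet 15 (rep 0) := by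
  obtain ⟨ω, hω⟩ := exists_omega
  rw [charDet_rep_aux (pot5 a) ω hω, charDet_rep_aux 0 ω hω]
  refine Finset.prod_congr rfl fun k _ => ?_
  exact blk_iso a ha _ _ (vecOm_mul ω hω k)

end Block

/-! ### First order variation -/

section Variation

open Polynomial

theorem charDet_map {R S : Type*} [CommRing R] [CommRing S] (f : R →+* S) (q : ℕ)
    (v : Fin q → R) : charDet q (fun j => f (v j)) = (charDet q v).map f := by
  unfold charDet
  rw [← Polynomial.coe_mapRingHom, RingHom.map_det]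
  congr 1
  ext i j : 1
  simp only [Matrix.sub_apply, Matrix.map_apply, Matrix.smul_apply, RingHom.mapMatrix_apply,
    floquet, Matrix.of_apply, smul_eq_mul, Matrix.one_apply, Polynomial.coe_mapRingHom,
    Polynomial.map_sub, Polynomial.map_mul, Polynomial.map_X, Polynomial.map_C]
  split_ifs <;> simp

theorem zeta_map {R S : Type*} [CommRing R] [CommRing S] (f : R →+* S) (q : ℕ)
    (v : Fin q → R) : zeta q (fun j => f (v j)) = (zeta q v).map f := by
  unfold zeta
  rw [Polynomial.map_sub, ← charDet_map, ← charDet_map]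
  have : (fun j : Fin q => f ((0 : Fin q → R) j)) = 0 := by
    funext j
    simp
  rw [this]

theorem zeta_congr {R : Type*} [CommRing R] (q : ℕ) (v v' : Fin q → R)
    (h : charDet q v = charDet q v') : zeta q v = zeta q v' := by
  unfold zeta
  rw [h]

theorem zeta_zero {R : Type*} [CommRing R] (q : ℕ) (v : Fin q → R) (h : ∀ j, v j = 0) :
    zeta q v = 0 := by
  have : v = 0 := funext h
  rw [this, zeta, sub_self]

theorem det_variation {B n : Type*} [CommRing B] [Fintype n] [DecidableEq n]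
    (N : Matrix n n B) (p r : n) (hpr : p ≠ r) (e : B) (he : e * e = 0) :
    (N + Matrix.diagonal (fun i => (if i = p then e else 0) - (if i = r then e else 0))).det =
      N.det + e * ((N.updateRow p (Pi.single p 1)).det - (N.updateRow r (Pi.single r 1)).det) := by
  have h0 : N + Matrix.diagonal (fun i => (if i = p then e else 0) - (if i = r then e else 0)) =
      (N.updateRow p (N p + e • (Pi.single p 1 : n → B))).updateRow r
        (N r + (-e) • (Pi.single r 1 : n → B)) := by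
    ext i j
    rw [Matrix.updateRow_apply]
    by_cases hir : i = r
    · subst hir
      simp only [Matrix.add_apply, Matrix.diagonal_apply, if_true, Pi.add_apply, Pi.smul_apply,
        smul_eq_mul, Pi.single_apply]
      by_cases hij : i = j
      · subst hij; simp [Ne.symm hpr]
      · simp [hij, Ne.symm hij]
    · rw [if_neg hir, Matrix.updateRow_apply]
      by_cases hip : i = p
      · subst hip
        simp only [Matrix.add_apply, Matrix.diagonal_apply, if_true, Pi.add_apply, Pi.smul_apply,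
          smul_eq_mul, Pi.single_apply]
        by_cases hij : i = j
        · subst hij; simp [hpr]
        · simp [hij, Ne.symm hij]
      · rw [if_neg hip]
        simp [Matrix.diagonal_apply, hip, hir]
  have h1 : (N.updateRow p (N p + e • (Pi.single p 1 : n → B))) r = N r := by
    rw [Matrix.updateRow_ne (Ne.symm hpr)]
  have h2 : (N.updateRow p (N p + e • (Pi.single p 1 : n → B))).det =
      N.det + e * (N.updateRow p (Pi.single p 1)).det := by
    rw [Matrix.det_updateRow_add, Matrix.updateRow_eq_self, Matrix.det_updateRow_smul]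
  have h3 : ((N.updateRow p (N p + e • (Pi.single p 1 : n → B))).updateRow r
      (Pi.single r 1)).det = (N.updateRow r (Pi.single r 1)).det +
        e * ((N.updateRow r (Pi.single r 1)).updateRow p (Pi.single p 1)).det := by
    rw [Matrix.updateRow_comm _ hpr, Matrix.det_updateRow_add, Matrix.det_updateRow_smul]
    congr 2
    have : (N.updateRow r (Pi.single r 1)) p = N p := Matrix.updateRow_ne hpr
    rw [← this, Matrix.updateRow_eq_self]
  rw [h0, Matrix.det_updateRow_add, Matrix.det_updateRow_smul, h3]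
  have h4 : ((N.updateRow p (N p + e • (Pi.single p 1 : n → B))).updateRow r (N r)).det =
      N.det + e * (N.updateRow p (Pi.single p 1)).det := by
    rw [← h2]
    congr 1
    conv_lhs => rw [← h1]
    rw [Matrix.updateRow_eq_self]
  rw [h4]
  linear_combination (-((N.updateRow r (Pi.single r 1)).updateRow p (Pi.single p 1)).det) * he

theorem det_variation' {B n : Type*} [CommRing B] [Fintype n] [DecidableEq n]
    (N : Matrix n n B) (p r : n) (hpr : p ≠ r) (e : B) (he : e * e = 0)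
    (h : (N.updateRow r (Pi.single r 1)).det = (N.updateRow p (Pi.single p 1)).det) :
    (N + Matrix.diagonal (fun i => (if i = p then e else 0) - (if i = r then e else 0))).det =
      N.det := by
  rw [det_variation N p r hpr e he, h, sub_self, mul_zero, add_zero]

/-- The base point. -/
noncomputable def upt (a : ℂ) : Fin (15 / 2) → ℂ :=
  ![a, Complex.I * a, 0, -(Complex.I * a), -a, a, Complex.I * a]

/-- The base point moved in the direction of the third coordinate. -/
noncomputable def ueps (a : ℂ) : Fin (15 / 2) → DualNumber ℂ :=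
  ![TrivSqZeroExt.inl a, TrivSqZeroExt.inl (Complex.I * a), DualNumber.eps,
    TrivSqZeroExt.inl (-(Complex.I * a)), TrivSqZeroExt.inl (-a), TrivSqZeroExt.inl a,
    TrivSqZeroExt.inl (Complex.I * a)]

theorem anti_ueps (a : ℂ) : anti 15 (ueps a) =
    fun j => (TrivSqZeroExt.inlHom ℂ ℂ) (rep (pot5 a) j) +
      ((if j = 2 then DualNumber.eps else 0) - (if j = 12 then DualNumber.eps else 0)) := by
  funext j
  fin_cases j <;> simp [anti, ueps, rep, pot5]

/-- The matrix `L_V - λ` for `q = 15`. -/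
noncomputable def charMat {R : Type*} [CommRing R] (v : Fin 15 → R) :
    Matrix (Fin 15) (Fin 15) R[X] :=
  (floquet 15 v).map C - (X : R[X]) • (1 : Matrix (Fin 15) (Fin 15) R[X])

theorem charDet_charMat {R : Type*} [CommRing R] (v : Fin 15 → R) :
    charDet 15 v = (charMat v).det := by
  rw [charDet, charMat]

theorem charMat_add {R : Type*} [CommRing R] (v d : Fin 15 → R) :
    charMat (fun j => v j + d j) = charMat v + Matrix.diagonal (fun j => C (d j)) := by
  ext i j : 1
  simp only [charMat, floquet, Matrix.sub_apply, Matrix.map_apply, Matrix.of_apply,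
    Matrix.add_apply, Matrix.smul_apply, Matrix.one_apply, Matrix.diagonal_apply]
  by_cases hij : i = j
  · simp only [hij, if_true, C_add]; ring
  · simp [hij]

theorem adj_shift : ∀ i j : Fin 15,
    ((((i + 10 : Fin 15) : ℕ) + 1 = (j + 10 : Fin 15) ∨ ((j + 10 : Fin 15) : ℕ) + 1 = (i + 10 : Fin 15)
      ∨ (((i + 10 : Fin 15) : ℕ) = 0 ∧ ((j + 10 : Fin 15) : ℕ) + 1 = 15) ∨
        (((j + 10 : Fin 15) : ℕ) = 0 ∧ ((i + 10 : Fin 15) : ℕ) + 1 = 15)) ↔
    ((i : ℕ) + 1 = j ∨ (j : ℕ) + 1 = i ∨ ((i : ℕ) = 0 ∧ (j : ℕ) + 1 = 15) ∨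
        ((j : ℕ) = 0 ∧ (i : ℕ) + 1 = 15))) := by
  decide

theorem charMat_shift {R : Type*} [CommRing R] (v : Fin 15 → R) (hv : ∀ j, v (j + 10) = v j)
    (i j : Fin 15) : charMat v (i + 10) (j + 10) = charMat v i j := by
  simp only [charMat, floquet, Matrix.sub_apply, Matrix.map_apply, Matrix.of_apply,
    Matrix.smul_apply, Matrix.one_apply, add_left_inj, hv]
  rw [if_congr (adj_shift i j) rfl rfl]

theorem minors_eq {R : Type*} [CommRing R] (v : Fin 15 → R) (hv : ∀ j, v (j + 10) = v j) :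
    ((charMat v).updateRow 12 (Pi.single 12 1)).det =
    ((charMat v).updateRow 2 (Pi.single 2 1)).det := by
  rw [← Matrix.det_submatrix_equiv_self (Equiv.addRight (10 : Fin 15))]
  congr 1
  ext i j : 1
  rw [Matrix.submatrix_apply, Matrix.updateRow_apply, Matrix.updateRow_apply]
  simp only [Equiv.coe_addRight]
  have h12 : (12 : Fin 15) = 2 + 10 := by decide
  rw [h12]
  simp only [add_left_inj]
  by_cases hi : i = 2
  · rw [if_pos hi, if_pos hi]
    simp only [Pi.single_apply, add_left_inj]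
  · rw [if_neg hi, if_neg hi, charMat_shift v hv]

theorem rep_shift (w : Fin 5 → ℂ) (j : Fin 15) : rep w (j + 10) = rep w j := by
  fin_cases j <;> simp [rep]

theorem zeta_ueps (a : ℂ) (ha : a ^ 2 = 1 - 2 * Complex.I) : zeta 15 (anti 15 (ueps a)) = 0 := by
  have he : (C (DualNumber.eps : DualNumber ℂ)) * C (DualNumber.eps : DualNumber ℂ) = 0 := by
    rw [← C_mul, DualNumber.eps_mul_eps, C_0]
  have h1 : charDet 15 (anti 15 (ueps a)) =
      charDet 15 (fun j => (TrivSqZeroExt.inlHom ℂ ℂ) (rep (pot5 a) j)) := by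
    have hd : (fun j : Fin 15 => (C ((if j = 2 then (DualNumber.eps : DualNumber ℂ) else 0) -
        (if j = 12 then DualNumber.eps else 0)) : (DualNumber ℂ)[X])) =
        fun j => (if j = 2 then C DualNumber.eps else 0) - (if j = 12 then C DualNumber.eps else 0) := by
      funext j
      rw [C_sub]
      split_ifs <;> simp
    have hm := minors_eq (fun j => (TrivSqZeroExt.inlHom ℂ ℂ) (rep (pot5 a) j))
      (fun j => congrArg _ (rep_shift _ j))
    have hvar := det_variation' (charMat (fun j => (TrivSqZeroExt.inlHom ℂ ℂ) (rep (pot5 a) j)))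
      2 12 (by decide) (C DualNumber.eps) he hm
    have e1 : charDet 15 (anti 15 (ueps a)) = (charMat (anti 15 (ueps a))).det :=
      charDet_charMat _
    rw [anti_ueps, charMat_add, hd] at e1
    rw [anti_ueps]
    exact e1.trans (hvar.trans (charDet_charMat _).symm)
  have h2 := zeta_congr 15 _ _ h1
  have h3 := zeta_map (TrivSqZeroExt.inlHom ℂ ℂ) 15 (rep (pot5 a))
  have h4 := zeta_congr 15 _ _ (charDet_rep a ha)
  have h5 : zeta 15 (rep 0) = 0 := zeta_zero 15 _ (fun j => by simp [rep])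
  rw [h2, h3, h4, h5, Polynomial.map_zero]

/-! ### The local ring -/

/-- Evaluation at the moved base point. -/
noncomputable def evEps (a : ℂ) : MvPolynomial (Fin (15 / 2)) ℂ →ₐ[ℂ] DualNumber ℂ :=
  MvPolynomial.aeval (ueps a)

theorem evEps_pPrime (a : ℂ) (ha : a ^ 2 = 1 - 2 * Complex.I) (k : ℕ) :
    evEps a (pPrime 15 k) = 0 := by
  have h1 : (zeta 15 (anti 15 (fun i => (MvPolynomial.X i : MvPolynomial (Fin (15 / 2)) ℂ)))).map
      (evEps a : MvPolynomial (Fin (15 / 2)) ℂ →+* DualNumber ℂ) = 0 := by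
    have e1 : (fun j => (evEps a : MvPolynomial (Fin (15 / 2)) ℂ →+* DualNumber ℂ) (anti 15
        (fun i => (MvPolynomial.X i : MvPolynomial (Fin (15 / 2)) ℂ)) j)) = anti 15 (ueps a) := by
      funext j
      unfold anti
      split_ifs <;> simp [evEps]
    have m1 := zeta_map (evEps a : MvPolynomial (Fin (15 / 2)) ℂ →+* DualNumber ℂ) 15
      (anti 15 (fun i => (MvPolynomial.X i : MvPolynomial (Fin (15 / 2)) ℂ)))
    rw [← m1, e1]
    exact zeta_ueps a ha
  have h2 : ∀ (Z : Polynomial (MvPolynomial (Fin (15 / 2)) ℂ)) (n : ℕ),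
      Z.map (evEps a : MvPolynomial (Fin (15 / 2)) ℂ →+* DualNumber ℂ) = 0 →
      evEps a (Z.coeff n) = 0 := by
    intro Z n hZ
    have := congrArg (fun p => Polynomial.coeff p n) hZ
    simpa [Polynomial.coeff_map] using this
  rw [pPrime, map_mul, h2 _ _ h1, mul_zero]

theorem evEps_ideal (a : ℂ) (ha : a ^ 2 = 1 - 2 * Complex.I)
    (f : MvPolynomial (Fin (15 / 2)) ℂ) (hf : f ∈ idealI 15) : evEps a f = 0 := by
  have : idealI 15 ≤ RingHom.ker (evEps a : MvPolynomial (Fin (15 / 2)) ℂ →+* DualNumber ℂ) := by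
    rw [idealI, Ideal.span_le]
    rintro _ ⟨k, _, rfl⟩
    exact evEps_pPrime a ha k
  exact this hf

theorem fst_evEps (a : ℂ) (f : MvPolynomial (Fin (15 / 2)) ℂ) :
    TrivSqZeroExt.fst (evEps a f) = MvPolynomial.eval (upt a) f := by
  have h : (TrivSqZeroExt.fstHom ℂ ℂ ℂ).comp (evEps a) = MvPolynomial.aeval (upt a) := by
    apply MvPolynomial.algHom_ext
    intro i
    simp only [evEps, AlgHom.comp_apply, MvPolynomial.aeval_X]
    fin_cases i <;> simp [ueps, upt]
  have := congrArg (fun g => g f) h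
  simpa [MvPolynomial.aeval_eq_eval] using this

theorem mem_zeroSet (a : ℂ) (ha : a ^ 2 = 1 - 2 * Complex.I) : upt a ∈ zeroSet 15 := by
  intro f hf
  rw [← fst_evEps, evEps_ideal a ha f hf]
  simp

noncomputable def quotHom (a : ℂ) (ha : a ^ 2 = 1 - 2 * Complex.I) :
    (MvPolynomial (Fin (15 / 2)) ℂ ⧸ idealI 15) →ₐ[ℂ] DualNumber ℂ :=
  Ideal.Quotient.liftₐ (idealI 15) (evEps a) (fun f hf => evEps_ideal a ha f hf)

theorem quotHom_unit (a : ℂ) (ha : a ^ 2 = 1 - 2 * Complex.I)
    (y : (nonvanishing (upt a)).map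
      (Ideal.Quotient.mk (idealI 15) : MvPolynomial (Fin (15 / 2)) ℂ →+* _)) :
    IsUnit (quotHom a ha y) := by
  obtain ⟨y, f, hf, rfl⟩ := y
  have h1 : quotHom a ha (Ideal.Quotient.mk (idealI 15) f) = evEps a f := rfl
  show IsUnit (quotHom a ha (Ideal.Quotient.mk (idealI 15) f))
  rw [h1, TrivSqZeroExt.isUnit_iff_isUnit_fst, fst_evEps]
  exact isUnit_iff_ne_zero.mpr hf

noncomputable def locHom (a : ℂ) (ha : a ^ 2 = 1 - 2 * Complex.I) :
    LocalRing 15 (upt a) →ₐ[ℂ] DualNumber ℂ :=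
  IsLocalization.liftAlgHom (M := (nonvanishing (upt a)).map
      (Ideal.Quotient.mk (idealI 15) : MvPolynomial (Fin (15 / 2)) ℂ →+* _))
    (f := quotHom a ha) (quotHom_unit a ha)

theorem two_le_rank (a : ℂ) (ha : a ^ 2 = 1 - 2 * Complex.I) :
    2 ≤ Module.rank ℂ (LocalRing 15 (upt a)) := by
  set x2 : LocalRing 15 (upt a) := algebraMap _ _ (Ideal.Quotient.mk (idealI 15)
    (MvPolynomial.X (⟨2, by norm_num⟩ : Fin (15 / 2)))) with hx2
  have hx : locHom a ha x2 = DualNumber.eps := by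
    rw [hx2, locHom, IsLocalization.coe_liftAlgHom, IsLocalization.lift_eq]
    show evEps a (MvPolynomial.X _) = _
    simp [evEps, ueps]
  have hli : LinearIndependent ℂ ![(1 : LocalRing 15 (upt a)), x2] := by
    apply LinearIndependent.of_comp (locHom a ha).toLinearMap
    have : (locHom a ha).toLinearMap ∘ ![(1 : LocalRing 15 (upt a)), x2] =
        ![(1 : DualNumber ℂ), DualNumber.eps] := by
      funext i
      fin_cases i
      · simp
      · simpa using hx
    rw [this, LinearIndependent.pair_iff]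
    intro s t hst
    constructor
    · have := congrArg TrivSqZeroExt.fst hst
      simpa using this
    · have := congrArg TrivSqZeroExt.snd hst
      simpa using this
  have := hli.cardinal_le_rank
  simpa using this

end Variation

theorem exists_singular : ∃ a ∈ zeroSet 15, a ≠ 0 ∧ 2 ≤ Module.rank ℂ (LocalRing 15 a) := by
  obtain ⟨a, ha⟩ := IsAlgClosed.exists_pow_nat_eq (1 - 2 * Complex.I) (n := 2) (by norm_num)
  refine ⟨upt a, mem_zeroSet a ha, ?_, two_le_rank a ha⟩
  intro h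
  have h0 : a = 0 := by
    have := congrFun h (⟨0, by norm_num⟩ : Fin (15 / 2))
    simpa [upt] using this
  rw [h0] at ha
  have := congrArg Complex.re ha
  simp at this

/-- **The conjecture fails.**  For `q = 15` there is a nonzero point of `V(I')` whose local ring
has dimension at least two, i.e. a nonzero singular point, so assertion (a) fails for `q = 15`. -/
theorem result : (∃ a ∈ zeroSet 15, a ≠ 0 ∧ 2 ≤ Module.rank ℂ (LocalRing 15 a)) ∧
    (¬ ∀ a ∈ zeroSet 15, a ≠ 0 → mult 15 a = 1) ∧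
    ¬ ∀ q, 3 ≤ q → Assertions q := by
  have key : ¬ ∀ a ∈ zeroSet 15, a ≠ 0 → mult 15 a = 1 := by
    intro h
    obtain ⟨a, h1, h2, h3⟩ := exists_singular
    have h4 := h a h1 h2
    rw [mult, ← Module.rank_eq_one_iff_finrank_eq_one] at h4
    rw [h4] at h3
    exact absurd h3 (by norm_num)
  refine ⟨exists_singular, key, fun h => key ?_⟩
  exact (h 15 (by norm_num)).1 (by decide)

end Pool.Agent.Results.MP_61df98_mp.RepeatedPotential
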